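import Pool.Agent.P.MP_80466e_an.Hd.Top

/-!
For every smooth conformally flat metric `g = φ δ` on the torus of dimension `n ≥ 4`, except the
flat metrics in dimension four, there is a smooth nonconstant `f`, positive somewhere, such that no
admitted constant function is critical for `f` and `g`.
-/

set_option autoImplicit false

namespace Pool.Agent.Results.MP_80466e_an.EveryMetric

open Pool.Agent.P.MP_80466e_an

theorem result (n : ℕ) (hn : 4 ≤ n) (φ : E n → ℝ) (hφ : ContDiff ℝ (⊤ : ℕ∞) φ) (pφ : Per φ)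
    (h0 : ∀ x, 0 < φ x) (h : 5 ≤ n ∨ ∃ x y, φ x ≠ φ y) :
    ∃ f : E n → ℝ, ContDiff ℝ (⊤ : ℕ∞) f ∧ Per f ∧ (∃ x, 0 < f x) ∧ (∃ x y, f x ≠ f y) ∧
      (n ≠ 5 → (∃ x y, φ x ≠ φ y) → ∀ x, 0 < f x) ∧
      ∀ c : ℝ, (∀ x, 0 < f x) ∨ Coercive φ (fun _ => c) → ¬ Critical φ f (fun _ => c) := by
  by_cases k : n ≠ 5 ∧ ∃ x y, φ x ≠ φ y
  · obtain ⟨f, h1, h2, h3, h4, h5⟩ := Hd.case2 (j := if n = 4 then 0 else 1)
      (by split_ifs <;> omega) hφ pφ h0 k.2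
    exact ⟨f, h1, h2, ⟨0, h3 0⟩, h4, fun _ _ => h3, fun c _ => h5 c⟩
  · obtain ⟨f, h1, h2, h3, h4, h5⟩ := Hd.case1
      (h.elim id fun e => (not_not.1 fun k' => k ⟨k', e⟩).ge) hφ pφ h0
    exact ⟨f, h1, h2, h3, h4, fun a b => (k ⟨a, b⟩).elim, h5⟩

end Pool.Agent.Results.MP_80466e_an.EveryMetric
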